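import Pool.Agent.Q101.SumLat

set_option autoImplicit false

namespace Pool.Agent.Results.MP_2139d9_an.SupSum

open Q101.LatLift Q101.SumLat

universe u

/-- `P` is a projective Banach lattice (isometric notion), the test spaces ranging over the
universe `u`: lattice homomorphisms of `P` into a lattice quotient `Z` of a Banach lattice `X`
lift to `X`, with the norm increased by at most the factor `1 + ε`. -/
def IsProjective (P : Type) [NormedAddCommGroup P] [NormedSpace ℝ P] [Lattice P] : Prop :=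
  ∀ (X Z : Type u) [NormedAddCommGroup X] [NormedSpace ℝ X] [CompleteSpace X] [Lattice X]
    [IsOrderedAddMonoid X] [IsOrderedModule ℝ X] [HasSolidNorm X]
    [NormedAddCommGroup Z] [NormedSpace ℝ Z] [Lattice Z] [IsOrderedAddMonoid Z]
    [IsOrderedModule ℝ Z] [HasSolidNorm Z] (Q : X →L[ℝ] Z), IsLatticeQuotient Q →
    ∀ T : P →L[ℝ] Z, IsLatticeHom T → ∀ ε : ℝ, 0 < ε →
      ∃ T' : P →L[ℝ] X, IsLatticeHom T' ∧ Q.comp T' = T ∧ ‖T'‖ ≤ (1 + ε) * ‖T‖

/-- There is a projective Banach lattice `P` with a topological order unit such that the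
`ℓ_∞`-sum `ℝ ⊕ P` (the product with the maximum norm and the coordinatewise order) is not
projective; `ℝ` is projective with a topological order unit. -/
theorem result : ∃ (P : Type) (_ : NormedAddCommGroup P) (_ : NormedSpace ℝ P)
    (_ : CompleteSpace P) (_ : Lattice P) (_ : IsOrderedAddMonoid P) (_ : IsOrderedModule ℝ P)
    (_ : HasSolidNorm P),
    (IsProjective.{u} P ∧ ∃ e : P, IsTopOrderUnit e) ∧
    (IsProjective.{u} ℝ ∧ ∃ e : ℝ, IsTopOrderUnit e) ∧
    ¬ IsProjective.{0} (ℝ × P) := by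
  refine ⟨Q101.PathLat.P, inferInstance, inferInstance, inferInstance, inferInstance,
    inferInstance, inferInstance, inferInstance, ⟨?_, unit, unit_isUnit⟩,
    ⟨?_, 1, real_unit⟩, fun h => ?_⟩
  · intro X Z _ _ _ _ _ _ _ _ _ _ _ _ _ Q hQ T hT ε hε
    exact Q101.PathLat.projective hQ hT hε
  · intro X Z _ _ _ _ _ _ _ _ _ _ _ _ _ Q hQ T hT ε hε
    exact real_projective hQ hT hε
  · obtain ⟨T, hT, hQT, hn⟩ := h Y (ℝ × Q101.PathLat.P) QY QY_quotient
      (ContinuousLinearMap.id ℝ (ℝ × Q101.PathLat.P)) (fun x y => ⟨rfl, rfl⟩) (1 / 2)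
      (by norm_num)
    have h1 := no_lift hT hQT
    have h2 := ContinuousLinearMap.norm_id_le (𝕜 := ℝ) (E := ℝ × Q101.PathLat.P)
    linarith

end Pool.Agent.Results.MP_2139d9_an.SupSum
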